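import Pool.Agent.Helper4.AE.St

set_option autoImplicit false

namespace Pool.Agent.Helper60.AE

open Pool.Agent.Helper4.AE
open Finset

theorem hCNT : StCNT := by
  intro q h hq
  have hq0 : (0 : ℝ) < q := by exact_mod_cast hq
  set P := (range h ×ˢ range h).filter fun p => (q : ℤ) ∣ (p.1 : ℤ) - (p.2 : ℤ) with hP
  set c : ℕ → ℕ := fun r => ((range h).filter fun i => i % q = r).card with hc
  have hdvd : ∀ i j : ℕ, (q : ℤ) ∣ (i : ℤ) - (j : ℤ) ↔ i % q = j % q := by
    intro i j
    constructor
    · intro hd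
      have h1 : (j : ℤ) ≡ i [ZMOD q] := (Int.modEq_iff_dvd).2 hd
      have h2 : j ≡ i [MOD q] := (Int.natCast_modEq_iff).1 h1
      exact h2.symm
    · intro he
      have h2 : j ≡ i [MOD q] := he.symm
      have h1 : (j : ℤ) ≡ i [ZMOD q] := (Int.natCast_modEq_iff).2 h2
      exact (Int.modEq_iff_dvd).1 h1
  have hcard : P.card = ∑ r ∈ range q, c r ^ 2 := by
    have hmaps : ∀ p ∈ P, p.1 % q ∈ range q := by
      intro p _
      rw [mem_range]
      exact Nat.mod_lt _ hq
    rw [card_eq_sum_card_fiberwise hmaps]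
    apply sum_congr rfl
    intro r hr
    have : (P.filter fun p => p.1 % q = r) =
        ((range h).filter fun i => i % q = r) ×ˢ ((range h).filter fun i => i % q = r) := by
      ext p
      simp only [hP, mem_filter, mem_product, hdvd]
      constructor
      · rintro ⟨⟨⟨h1, h2⟩, h3⟩, h4⟩
        exact ⟨⟨h1, h4⟩, h2, h3 ▸ h4⟩
      · rintro ⟨⟨h1, h4⟩, h2, h5⟩
        exact ⟨⟨⟨h1, h2⟩, h4.trans h5.symm⟩, h4⟩
    rw [this, card_product, sq]
  have hsum : ∑ r ∈ range q, c r = h := by
    have hmaps : ∀ i ∈ range h, i % q ∈ range q := by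
      intro i _
      rw [mem_range]
      exact Nat.mod_lt _ hq
    have := card_eq_sum_card_fiberwise hmaps
    rw [card_range] at this
    exact this.symm
  have hsumR : ∑ r ∈ range q, (c r : ℝ) = h := by exact_mod_cast hsum
  have hcardR : (P.card : ℝ) = ∑ r ∈ range q, (c r : ℝ) ^ 2 := by
    rw [hcard]; push_cast; rfl
  constructor
  · rw [hcardR, div_le_iff₀ hq0]
    have h1 := sq_sum_le_card_mul_sum_sq (s := range q) (f := fun r => (c r : ℝ))
    rw [hsumR, card_range] at h1
    linarith
  · rw [hcardR]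
    have hcr : ∀ r ∈ range q, (c r : ℝ) ≤ (h : ℝ) / q + 1 := by
      intro r hr
      rw [mem_range] at hr
      have h1 : c r = Nat.count (fun i => i ≡ r [MOD q]) h := by
        rw [Nat.count_eq_card_filter_range]
        simp only [hc]
        congr 1
        apply filter_congr
        intro i _
        unfold Nat.ModEq
        rw [Nat.mod_eq_of_lt hr]
      have h2 : c r ≤ h / q + 1 := by
        rw [h1, Nat.count_modEq_card h hq r]
        split_ifs <;> omega
      have h3 : ((h / q : ℕ) : ℝ) ≤ (h : ℝ) / q := Nat.cast_div_le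
      have h4 : (c r : ℝ) ≤ ((h / q : ℕ) : ℝ) + 1 := by exact_mod_cast h2
      linarith
    calc ∑ r ∈ range q, (c r : ℝ) ^ 2 ≤ ∑ r ∈ range q, (c r : ℝ) * ((h : ℝ) / q + 1) := by
          apply sum_le_sum
          intro r hr
          rw [sq]
          exact mul_le_mul_of_nonneg_left (hcr r hr) (Nat.cast_nonneg _)
      _ = h * ((h : ℝ) / q + 1) := by rw [← sum_mul, hsumR]
      _ = (h : ℝ) ^ 2 / q + h := by ring

end Pool.Agent.Helper60.AE
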